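import Mathlib
import Pool.Agent.H354R2.Pratt

/-!
# A Fermat number with at least four prime factors of the same order

The three prime factors `114689`, `190274191361` and `1256132134125569` of `F₁₂` have order `14`, the
least possible order. The number of the prime factors of `F₁₂` of order `14` is even, because their
product is `1` modulo `2 ^ 15`. So there are at least four of them.
-/

set_option autoImplicit false

namespace Pool.Agent.Results.MP_3ca1ad_nt.FourSameOrderH12

/-- The product of numbers which are `1` modulo `2 ^ e` (with `e ≥ 1`), modulo `2 ^ (e + 1)`, is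
determined by the parity of the number of those that are not `1` modulo `2 ^ (e + 1)`. -/
theorem prod_mod (e : ℕ) (he : 1 ≤ e) : ∀ l : List ℕ, (∀ p ∈ l, p % 2 ^ e = 1) →
    l.prod % 2 ^ (e + 1) =
      1 + 2 ^ e * ((l.filter fun p => p % 2 ^ (e + 1) ≠ 1).length % 2) := by
  have h2e : 2 ≤ 2 ^ e := by
    calc 2 = 2 ^ 1 := by norm_num
      _ ≤ 2 ^ e := Nat.pow_le_pow_right (by norm_num) he
  have hdbl : 2 ^ (e + 1) = 2 * 2 ^ e := by rw [pow_succ]; ring
  have hsq : 2 ^ e * 2 ^ e % 2 ^ (e + 1) = 0 := by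
    apply Nat.mod_eq_zero_of_dvd
    rw [← pow_add]
    exact pow_dvd_pow 2 (by omega)
  intro l
  induction l with
  | nil =>
    intro _
    simp only [List.prod_nil, List.filter_nil, List.length_nil, Nat.zero_mod, mul_zero, add_zero]
    exact Nat.mod_eq_of_lt (by omega)
  | cons a l ih =>
    intro h
    have ha := h a (by simp)
    have ihl := ih (fun p hp => h p (by simp [hp]))
    have ha2 : a % 2 ^ (e + 1) = 1 ∨ a % 2 ^ (e + 1) = 1 + 2 ^ e := by
      have h1 : a % 2 ^ (e + 1) % 2 ^ e = 1 := by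
        rw [Nat.mod_mod_of_dvd _ (pow_dvd_pow 2 (by omega)), ha]
      have h2 : a % 2 ^ (e + 1) < 2 ^ (e + 1) := Nat.mod_lt _ (by positivity)
      set b := a % 2 ^ (e + 1)
      rcases Nat.lt_or_ge b (2 ^ e) with h3 | h3
      · left
        rwa [Nat.mod_eq_of_lt h3] at h1
      · right
        have h4 : b - 2 ^ e < 2 ^ e := by omega
        rw [Nat.mod_eq_sub_mod h3, Nat.mod_eq_of_lt h4] at h1
        omega
    rw [List.prod_cons, Nat.mul_mod, ihl]
    rcases ha2 with ha2 | ha2
    · have hf : ((a :: l).filter fun p => p % 2 ^ (e + 1) ≠ 1)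
          = l.filter fun p => p % 2 ^ (e + 1) ≠ 1 := by
        simp [ha2]
      rw [hf, ha2, one_mul]
      refine Nat.mod_eq_of_lt ?_
      have : (l.filter fun p => p % 2 ^ (e + 1) ≠ 1).length % 2 ≤ 1 := by omega
      nlinarith
    · have hne : ¬ (a % 2 ^ (e + 1) = 1) := by omega
      have hf : ((a :: l).filter fun p => p % 2 ^ (e + 1) ≠ 1).length
          = (l.filter fun p => p % 2 ^ (e + 1) ≠ 1).length + 1 := by
        simp [hne]
      rw [hf, ha2]
      rcases Nat.mod_two_eq_zero_or_one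
        (l.filter fun p => p % 2 ^ (e + 1) ≠ 1).length with h0 | h0
      · have h1 : ((l.filter fun p => p % 2 ^ (e + 1) ≠ 1).length + 1) % 2 = 1 := by omega
        rw [h0, h1, mul_zero, add_zero, mul_one, mul_one]
        exact Nat.mod_eq_of_lt (by omega)
      · have h1 : ((l.filter fun p => p % 2 ^ (e + 1) ≠ 1).length + 1) % 2 = 0 := by omega
        rw [h0, h1, mul_zero, add_zero, mul_one]
        have h3 : (1 + 2 ^ e) * (1 + 2 ^ e) = 1 + 2 ^ e * 2 ^ e + 2 ^ (e + 1) := by rw [hdbl]; ring
        rw [h3, Nat.add_mod_right, Nat.add_mod, hsq, add_zero, Nat.mod_mod,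
          Nat.mod_eq_of_lt (by omega)]

theorem prime1 : Nat.Prime 114689 := by norm_num

theorem prime2 : Nat.Prime 190274191361 := by
  refine Pool.Agent.H354R2.pratt 190274191361 3 38
    [2, 2, 2, 2, 2, 2, 2, 2, 2, 2, 2, 2, 2, 2, 5, 11, 211153] ?_ (by decide +kernel)
  intro q hq
  simp only [List.mem_cons, List.not_mem_nil, or_false] at hq
  rcases hq with rfl | rfl | rfl | rfl | rfl | rfl | rfl | rfl | rfl | rfl | rfl | rfl | rfl | rfl |
    rfl | rfl | rfl <;> norm_num

theorem prime3 : Nat.Prime 1256132134125569 := by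
  refine Pool.Agent.H354R2.pratt 1256132134125569 3 51
    [2, 2, 2, 2, 2, 2, 2, 2, 2, 2, 2, 2, 2, 2, 7, 7, 53, 29521841] ?_ (by decide +kernel)
  intro q hq
  simp only [List.mem_cons, List.not_mem_nil, or_false] at hq
  rcases hq with rfl | rfl | rfl | rfl | rfl | rfl | rfl | rfl | rfl | rfl | rfl | rfl | rfl | rfl |
    rfl | rfl | rfl | rfl <;> norm_num

theorem dvd1 : 114689 ∣ 2 ^ (2 ^ 12) + 1 := Nat.dvd_of_mod_eq_zero (by decide +kernel)
theorem dvd2 : 190274191361 ∣ 2 ^ (2 ^ 12) + 1 := Nat.dvd_of_mod_eq_zero (by decide +kernel)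
theorem dvd3 : 1256132134125569 ∣ 2 ^ (2 ^ 12) + 1 := Nat.dvd_of_mod_eq_zero (by decide +kernel)

/-- For a prime factor of `F₁₂` the order is `14` if and only if it is not `1` modulo `2 ^ 15`. -/
theorem order_iff (p : ℕ) (h1 : p % 2 ^ 14 = 1) (hp : 1 < p) :
    padicValNat 2 (p - 1) = 14 ↔ p % 2 ^ 15 ≠ 1 := by
  have hd : 2 ^ 14 ∣ p - 1 := by
    have := Nat.div_add_mod p (2 ^ 14)
    exact ⟨p / 2 ^ 14, by omega⟩
  have h0 : p - 1 ≠ 0 := by omega
  have hle : 14 ≤ padicValNat 2 (p - 1) := (padicValNat_dvd_iff_le h0).1 hd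
  constructor
  · intro h h15
    have hd2 : 2 ^ 15 ∣ p - 1 := by
      have := Nat.div_add_mod p (2 ^ 15)
      exact ⟨p / 2 ^ 15, by omega⟩
    have := (padicValNat_dvd_iff_le h0).1 hd2
    omega
  · intro h
    by_contra hne
    have h3 : 15 ≤ padicValNat 2 (p - 1) := by omega
    have hd2 : 2 ^ 15 ∣ p - 1 := (padicValNat_dvd_iff_le h0).2 h3
    obtain ⟨k, hk⟩ := hd2
    apply h
    have : p = 2 ^ 15 * k + 1 := by omega
    rw [this]
    omega

theorem main : 4 ≤ ((Nat.primeFactorsList (2 ^ (2 ^ 12) + 1)).filter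
    fun p => padicValNat 2 (p - 1) = 14).length := by
  set F := 2 ^ (2 ^ 12) + 1 with hF
  have hF0 : F ≠ 0 := by rw [hF]; positivity
  have hmem : ∀ p ∈ Nat.primeFactorsList F, p % 2 ^ 14 = 1 := by
    intro p hp
    have hpp := Nat.prime_of_mem_primeFactorsList hp
    have hpd := Nat.dvd_of_mem_primeFactorsList hp
    obtain ⟨k, hk⟩ := Nat.fermat_primeFactors_one_lt 12 p (by norm_num) hpp hpd
    rw [hk]
    omega
  have hfilter : (Nat.primeFactorsList F).filter (fun p => padicValNat 2 (p - 1) = 14)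
      = (Nat.primeFactorsList F).filter (fun p => p % 2 ^ (14 + 1) ≠ 1) := by
    apply List.filter_congr
    intro p hp
    have h := order_iff p (hmem p hp) (Nat.prime_of_mem_primeFactorsList hp).one_lt
    simp only [decide_eq_decide]
    exact h
  rw [hfilter]
  have hprod := prod_mod 14 (by norm_num) _ hmem
  rw [Nat.prod_primeFactorsList hF0] at hprod
  have hFmod : F % 2 ^ (14 + 1) = 1 := by rw [hF]; decide +kernel
  rw [hFmod] at hprod
  set L := (Nat.primeFactorsList F).filter (fun p => p % 2 ^ (14 + 1) ≠ 1) with hL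
  have heven : L.length % 2 = 0 := by
    rcases Nat.mod_two_eq_zero_or_one L.length with h | h
    · exact h
    · rw [h] at hprod
      norm_num at hprod
  have hsub : ({114689, 190274191361, 1256132134125569} : Finset ℕ) ⊆ L.toFinset := by
    intro p hp
    simp only [Finset.mem_insert, Finset.mem_singleton] at hp
    rw [List.mem_toFinset, hL, List.mem_filter]
    rcases hp with rfl | rfl | rfl
    · exact ⟨(Nat.mem_primeFactorsList hF0).2 ⟨prime1, dvd1⟩, by decide⟩
    · exact ⟨(Nat.mem_primeFactorsList hF0).2 ⟨prime2, dvd2⟩, by decide⟩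
    · exact ⟨(Nat.mem_primeFactorsList hF0).2 ⟨prime3, dvd3⟩, by decide⟩
  have hcard : 3 ≤ L.length := by
    calc 3 = ({114689, 190274191361, 1256132134125569} : Finset ℕ).card := by decide
      _ ≤ L.toFinset.card := Finset.card_le_card hsub
      _ ≤ L.length := List.toFinset_card_le L
  omega

/-- The answer to the question is yes for `N ≤ 4`: the Fermat number `F₁₂` has at least four prime
factors, counted with multiplicity, of order exactly `14`. -/
theorem result : (∀ N : ℕ, N ≤ 4 → ∃ m n : ℕ,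
    N ≤ ((Nat.primeFactorsList (2 ^ (2 ^ m) + 1)).filter
      fun p => padicValNat 2 (p - 1) = n).length) ∧
    4 ≤ ((Nat.primeFactorsList (2 ^ (2 ^ 12) + 1)).filter
      fun p => padicValNat 2 (p - 1) = 14).length :=
  ⟨fun _ hN => ⟨12, 14, hN.trans main⟩, main⟩

end Pool.Agent.Results.MP_3ca1ad_nt.FourSameOrderH12
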